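import Mathlib

/-!
# Some algebra
-/

set_option autoImplicit false

namespace Pool.Agent.H860.RS

open TensorProduct

theorem exists_functional {p : ℕ} [Fact p.Prime] {V : Type*} [AddCommGroup V]
    [Module (ZMod p) V] (v : V) (hv : v ≠ 0) : ∃ f : V →+ ZMod p, f v ≠ 0 := by
  obtain ⟨φ, hφ⟩ := Module.Projective.exists_dual_ne_zero (ZMod p) hv
  exact ⟨φ.toAddMonoidHom, hφ⟩

/-- A nonzero additive map to `ZMod p` from a group which is not `p`-divisible. -/
theorem exists_hom {p : ℕ} [Fact p.Prime] {H : Type*} [AddCommGroup H]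
    (h : ∃ x : H, ∀ y : H, p • y ≠ x) : ∃ f : H →+ ZMod p, ∃ x : H, f x ≠ 0 := by
  obtain ⟨x, hx⟩ := h
  obtain ⟨S, hS⟩ : ∃ S : AddSubgroup H, S = (DistribSMul.toAddMonoidHom H (p : ℕ)).range :=
    ⟨_, rfl⟩
  have hm : ∀ y : H ⧸ S, p • y = 0 := by
    intro y
    obtain ⟨z, rfl⟩ := QuotientAddGroup.mk_surjective y
    rw [← QuotientAddGroup.mk_nsmul, QuotientAddGroup.eq_zero_iff, hS]
    exact ⟨z, rfl⟩
  have h1 : (QuotientAddGroup.mk x : H ⧸ S) ≠ 0 := by
    intro h2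
    rw [QuotientAddGroup.eq_zero_iff, hS] at h2
    obtain ⟨y, hy⟩ := h2
    exact hx y hy
  obtain ⟨φ, hφ⟩ := @exists_functional p _ (H ⧸ S) _ (AddCommGroup.zmodModule hm) _ h1
  exact ⟨φ.comp (QuotientAddGroup.mk' S), x, hφ⟩

theorem tensor_nontrivial {p : ℕ} [Fact p.Prime] {H A : Type*} [AddCommGroup H] [AddCommGroup A]
    (hH : ∃ x : H, ∀ y : H, p • y ≠ x) (hA : ∃ x : A, ∀ y : A, p • y ≠ x) :
    Nontrivial (H ⊗[ℤ] A) := by
  obtain ⟨f, x, hx⟩ := exists_hom hH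
  obtain ⟨g, y, hy⟩ := exists_hom hA
  let φ : H ⊗[ℤ] A →ₗ[ℤ] ZMod p :=
    TensorProduct.lift (((LinearMap.mul ℤ (ZMod p)).compl₂ g.toIntLinearMap).comp
      f.toIntLinearMap)
  refine ⟨x ⊗ₜ y, 0, fun h => ?_⟩
  have h1 : φ (x ⊗ₜ y) = f x * g y := rfl
  rw [h, map_zero] at h1
  exact mul_ne_zero hx hy h1.symm

/-- A nonzero group annihilated by a power of `p` is not `p`-divisible. -/
theorem not_divisible {p : ℕ} {H : Type*} [AddCommGroup H] [Nontrivial H] (N : ℕ)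
    (h : ∀ x : H, (p ^ N) • x = 0) : ∃ x : H, ∀ y : H, p • y ≠ x := by
  by_contra hne
  push Not at hne
  have h1 : ∀ M : ℕ, ∀ x : H, ∃ y : H, (p ^ M) • y = x := by
    intro M
    induction M with
    | zero => exact fun x => ⟨x, by simp⟩
    | succ M ih =>
      intro x
      obtain ⟨y, hy⟩ := ih x
      obtain ⟨z, hz⟩ := hne y
      exact ⟨z, by rw [pow_succ, mul_smul, hz, hy]⟩
  obtain ⟨x, hx⟩ := exists_ne (0 : H)
  obtain ⟨y, hy⟩ := h1 N x
  rw [h y] at hy
  exact hx hy.symm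

/-- A nonzero finite algebra over a local ring with residue characteristic `p` is not
`p`-divisible. -/
theorem not_divisible_of_finite {p : ℕ} {R S : Type*} [CommRing R] [CommRing S] [Nontrivial S]
    (f : R →+* S) (hf : f.Finite) (hl : IsLocalRing R) (hp : ¬ IsUnit (p : R)) :
    ∃ x : S, ∀ y : S, p • y ≠ x := by
  by_contra hne
  push Not at hne
  let _ := f.toAlgebra
  have _ : Module.Finite R S := hf
  have h1 : (⊤ : Submodule R S) = ⊥ := by
    refine Submodule.eq_bot_of_le_smul_of_le_jacobson_bot (IsLocalRing.maximalIdeal R) ⊤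
      Module.Finite.fg_top ?_ (IsLocalRing.maximalIdeal_le_jacobson _)
    intro x _
    obtain ⟨y, hy⟩ := hne x
    rw [← hy, ← Nat.cast_smul_eq_nsmul R]
    exact Submodule.smul_mem_smul ((IsLocalRing.mem_maximalIdeal _).2 hp) trivial
  have h2 : (1 : S) ∈ (⊤ : Submodule R S) := trivial
  rw [h1] at h2
  exact one_ne_zero h2

end Pool.Agent.H860.RS
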