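import Mathlib

/-!
# Algebraic K-theory of commutative algebras over connective Morava E-theory: the setting

`Theory p n` collects the objects which occur in the question: the stable homotopy category with its
triangulated structure and smash product, homotopy groups, finite `p`-local spectra, Morava K-theories,
the finite localization `L^f_{n+1}`, `p`-completion, commutative `e_n`-algebras, their `π_0` and their
algebraic K-theory.  `Theory.IsKnown` lists the published facts about them which are used.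
-/

set_option autoImplicit false

universe u v w u' v'

namespace Pool.Agent.H860.RS

open CategoryTheory Limits Pretriangulated TensorProduct

/-- The objects which occur in the question, for the prime `p` and the height `n`. -/
structure Theory (p n : ℕ) where
  /-- The stable homotopy category (of spectra). -/
  Sp : Type u
  [catSp : Category.{v} Sp]
  [preSp : Preadditive Sp]
  [zeroSp : HasZeroObject Sp]
  [shiftSp : HasShift Sp ℤ]
  [addSp : ∀ k : ℤ, (shiftFunctor Sp k).Additive]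
  [triSp : Pretriangulated Sp]
  /-- The homotopy groups. -/
  pi : ℤ → Sp ⥤ AddCommGrpCat.{w}
  [addPi : ∀ k : ℤ, (pi k).Additive]
  /-- The smash product. -/
  smash : Sp ⥤ Sp ⥤ Sp
  [addSmash : smash.Additive]
  /-- Finite `p`-local spectra. -/
  fin : Sp → Prop
  /-- The Morava K-theories `K(m)` at the prime `p`; `K(0)` is rational homology. -/
  Kn : ℕ → Sp
  /-- The finite localization `L^f_{n+1}`. -/
  L : Sp ⥤ Sp
  /-- The localization map. -/
  toL : 𝟭 Sp ⟶ L
  /-- The `p`-completion. -/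
  compl : Sp ⥤ Sp
  /-- The completion map. -/
  toCompl : 𝟭 Sp ⟶ compl
  /-- The homotopy category of the commutative `e_n`-algebras, `e_n` the connective cover of the
  Lubin-Tate spectrum `E_n`. -/
  Alg : Type u'
  [catAlg : Category.{v'} Alg]
  /-- The underlying spectrum. -/
  und : Alg ⥤ Sp
  /-- The ring `π_0`. -/
  pi0 : Alg ⥤ CommRingCat.{w}
  /-- The algebra `e_n`. -/
  e : Alg
  /-- The unit map. -/
  unit : ∀ B : Alg, e ⟶ B
  /-- `B` is a retract of a finite cell `e_n`-module. -/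
  semifin : Alg → Prop
  /-- `M` is a Galois extension of `E_n[1/p]` for a finite group. -/
  galois : Alg → Prop
  /-- The algebraic K-theory spectrum. -/
  K : Alg ⥤ Sp
  /-- Topological Hochschild homology. -/
  THH : Alg ⥤ Sp
  /-- The dual numbers `B[x]/(x^2) = B ∧ S[Π]`, `Π` the pointed monoid `{0, 1, x}` with `x^2 = 0`. -/
  D : Alg ⥤ Alg
  /-- The augmentation `B[x]/(x^2) → B`. -/
  aug : D ⟶ 𝟭 Alg

attribute [instance] Theory.catSp Theory.preSp Theory.zeroSp Theory.shiftSp Theory.addSp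
  Theory.triSp Theory.catAlg Theory.addPi Theory.addSmash

/-- A commutative ring which has exactly the two idempotents `0` and `1`. -/
def Conn (R : Type w) [CommRing R] : Prop :=
  Nontrivial R ∧ ∀ x : R, x * x = x → x = 0 ∨ x = 1

/-- Two groups are isomorphic. -/
def AddIso (G : Type w) (H : Type w) [AddCommGroup G] [AddCommGroup H] : Prop := Nonempty (G ≃+ H)

/-- The ring `S` is isomorphic to the dual numbers `R[x]/(x^2)`. -/
def DualOf (R S : Type w) [CommRing R] [CommRing S] : Prop := Nonempty (S ≃+* DualNumber R)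

namespace Theory

variable {p n : ℕ} (T : Theory.{u, v, w, u', v'} p n)

/-- `f` induces an isomorphism on `π_k`. -/
def BijAt (k : ℤ) {X Y : T.Sp} (f : X ⟶ Y) : Prop := Function.Bijective ((T.pi k).map f)

/-- `π_k X → π_k Y → π_k Z` is exact. -/
def ExactAt (k : ℤ) {X Y Z : T.Sp} (f : X ⟶ Y) (g : Y ⟶ Z) : Prop :=
  Function.Exact ((T.pi k).map f) ((T.pi k).map g)

/-- There is a boundary map such that `π_k Y → π_k Z → π_{k-1} X → π_{k-1} Y` is exact. -/
def HasBoundary (k : ℤ) {X Y Z : T.Sp} (f : X ⟶ Y) (g : Y ⟶ Z) : Prop :=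
  ∃ δ : (T.pi k).obj Z →+ (T.pi (k - 1)).obj X,
    Function.Exact ((T.pi k).map g) δ ∧ Function.Exact δ ((T.pi (k - 1)).map f)

/-- `π_{a+b} (X ∧ Y)` is the tensor product of `π_a X` and `π_b Y`. -/
def BottomIso (X Y : T.Sp) (a b : ℤ) : Prop :=
  Nonempty ((T.pi (a + b)).obj ((T.smash.obj X).obj Y) ≃+ ((T.pi a).obj X) ⊗[ℤ] ((T.pi b).obj Y))

/-- `X ∧ W → Y ∧ W → Z ∧ W` is part of a cofibre sequence. -/
def SmashTri {X Y Z : T.Sp} (f : X ⟶ Y) (g : Y ⟶ Z) (W : T.Sp) : Prop :=
  ∃ h, Triangle.mk ((T.smash.map f).app W) ((T.smash.map g).app W) h ∈ distTriang T.Sp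

/-- `F_k X = π_k (F ∧ X)`. -/
abbrev hom (F : T.Sp) (k : ℤ) (X : T.Sp) : AddCommGrpCat.{w} :=
  (T.pi k).obj ((T.smash.obj F).obj X)

/-- The map induced by `f : F ⟶ F'` on `π_k (F ∧ X) → π_k (F' ∧ X)`. -/
abbrev act {F F' : T.Sp} (f : F ⟶ F') (k : ℤ) (X : T.Sp) : T.hom F k X ⟶ T.hom F' k X :=
  (T.pi k).map ((T.smash.map f).app X)

/-- The spectrum `Σ^{N d} F`. -/
def sh (F : T.Sp) (d : ℤ) : ℕ → T.Sp
  | 0 => F
  | N + 1 => (sh F d N)⟦d⟧

/-- The iterates `v^N : Σ^{N d} F → F` of a self map. -/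
def iter {F : T.Sp} {d : ℤ} (v : F⟦d⟧ ⟶ F) : (N : ℕ) → (T.sh F d N ⟶ F)
  | 0 => 𝟙 F
  | N + 1 => (iter v N)⟦d⟧' ≫ v

/-- `v : Σ^d F → F` is a `v_{n+1}` self map of the finite `p`-local spectrum `F`: `K(n+1)_* v` is
an isomorphism and `K(m)_* v` is nilpotent for `m ≠ n + 1`. -/
def SelfMap {F : T.Sp} {d : ℤ} (v : F⟦d⟧ ⟶ F) : Prop :=
  T.fin F ∧ (∀ k : ℤ, T.BijAt k ((T.smash.map v).app (T.Kn (n + 1)))) ∧
    ∀ m : ℕ, m ≠ n + 1 → ∃ N : ℕ, ∀ k : ℤ, T.act (T.iter v N) k (T.Kn m) = 0

/-- The identity of `F` is annihilated by a power of `p`. -/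
def Tors (F : T.Sp) : Prop := ∃ N : ℕ, (p ^ N : ℕ) • 𝟙 F = 0

/-- The homotopy groups vanish below `a`. -/
def Below (a : ℤ) (X : T.Sp) : Prop := ∀ k : ℤ, k < a → Subsingleton ((T.pi k).obj X)

/-- The algebras `B` of the question: connected, semi-finite and with a map to a Galois extension
of `E_n[1/p]`. -/
def Admissible (B : T.Alg) : Prop :=
  Conn (T.pi0.obj B) ∧ T.semifin B ∧ ∃ M : T.Alg, T.galois M ∧ Nonempty (B ⟶ M)

/-- Statement (1) of the question: `v` acts bijectively on `F_* K(B)` in all sufficiently high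
degrees. -/
def One (B : T.Alg) {F : T.Sp} {d : ℤ} (v : F⟦d⟧ ⟶ F) : Prop :=
  ∃ N : ℤ, ∀ k : ℤ, N ≤ k → T.BijAt k ((T.smash.map v).app (T.K.obj B))

/-- `f` induces isomorphisms on the homotopy groups of the `p`-completions in all sufficiently high
degrees. -/
def HighEquiv {X Y : T.Sp} (f : X ⟶ Y) : Prop :=
  ∃ N : ℤ, ∀ k : ℤ, N ≤ k → T.BijAt k (T.compl.map f)

/-- Statement (2) of the question: `K(B) → L^f_{n+1} K(B)` is a `p`-adic equivalence in
sufficiently high degrees. -/
def Two (B : T.Alg) : Prop := T.HighEquiv (T.toL.app (T.K.obj B))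

/-- The question: (1) and (2) hold for every `B` and every `(F, v)`. -/
def Question : Prop := ∀ B : T.Alg, T.Admissible B → ∀ (F : T.Sp) (d : ℤ) (v : F⟦d⟧ ⟶ F),
  T.SelfMap v → T.One B v ∧ T.Two B

/-- Facts of stable homotopy theory. -/
structure IsStable : Prop where
  /-- The long exact sequence of homotopy groups. -/
  les : ∀ (X Y Z : T.Sp) (f : X ⟶ Y) (g : Y ⟶ Z) (h : Z ⟶ X⟦(1 : ℤ)⟧),
    Triangle.mk f g h ∈ distTriang T.Sp → ∀ k : ℤ, T.ExactAt k f g ∧ T.HasBoundary k f g
  /-- Suspension shifts the homotopy groups. -/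
  shift_pi : ∀ (X : T.Sp) (d k : ℤ), AddIso ((T.pi k).obj (X⟦d⟧)) ((T.pi (k - d)).obj X)
  /-- The smash product with a spectrum preserves cofibre sequences. -/
  smash_tri : ∀ (X Y Z : T.Sp) (f : X ⟶ Y) (g : Y ⟶ Z) (h : Z ⟶ X⟦(1 : ℤ)⟧),
    Triangle.mk f g h ∈ distTriang T.Sp → ∀ W : T.Sp, T.SmashTri f g W
  /-- The bottom homotopy group of the smash product of two bounded below spectra. -/
  smash_bottom : ∀ (X Y : T.Sp) (a b : ℤ), T.Below a X → T.Below b Y →
    T.BottomIso X Y a b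

/-- Facts about finite spectra. -/
structure IsFin : Prop where
  /-- Finite `p`-local spectra are closed under cofibres of self maps. -/
  fin_cofibre : ∀ (F C : T.Sp) (d : ℤ) (v : F⟦d⟧ ⟶ F) (g : F ⟶ C) (h : C ⟶ (F⟦d⟧)⟦(1 : ℤ)⟧),
    T.fin F → Triangle.mk v g h ∈ distTriang T.Sp → T.fin C
  /-- A nonzero finite spectrum has a lowest nonzero homotopy group. -/
  fin_bottom : ∀ F : T.Sp, T.fin F → ¬ IsZero F → ∃ b : ℤ, T.Below b F ∧
    Nontrivial ((T.pi b).obj F)
  /-- A nonzero finite `p`-local spectrum has nonzero `K(m)`-homology for all large `m`. -/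
  fin_morava : ∀ F : T.Sp, T.fin F → ¬ IsZero F → ∃ m₀ : ℕ, ∀ m : ℕ, m₀ ≤ m →
    ∃ k : ℤ, Nontrivial (T.hom F k (T.Kn m))
  /-- A finite `p`-local spectrum with trivial rational homology is annihilated by a power
  of `p`. -/
  fin_tors : ∀ F : T.Sp, T.fin F → (∀ k : ℤ, Subsingleton (T.hom F k (T.Kn 0))) → T.Tors F
  /-- A finite spectrum with a `v_{n+1}` self map has type at least `n + 1`
  (Hopkins-Smith). -/
  hopkins_smith : ∀ (F : T.Sp) (d : ℤ) (v : F⟦d⟧ ⟶ F), T.SelfMap v →
    ∀ m : ℕ, m ≤ n → ∀ k : ℤ, Subsingleton (T.hom F k (T.Kn m))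
  /-- There are finite spectra of type at least `n + 2` (Mitchell, Smith). -/
  mitchell : ∃ F : T.Sp, T.fin F ∧ ¬ IsZero F ∧
    ∀ m : ℕ, m ≤ n + 1 → ∀ k : ℤ, Subsingleton (T.hom F k (T.Kn m))

/-- Facts about the finite localization and the `p`-completion. -/
structure IsLoc : Prop where
  /-- `L^f_{n+1}` is smashing and annihilates the finite spectra of type at least `n + 2`. -/
  L_acyclic : ∀ F : T.Sp, T.fin F →
    (∀ m : ℕ, m ≤ n + 1 → ∀ k : ℤ, Subsingleton (T.hom F k (T.Kn m))) →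
    ∀ (X : T.Sp) (k : ℤ), Subsingleton (T.hom F k (T.L.obj X))
  /-- Smashing with a finite torsion spectrum does not see the difference between `X` and its
  `p`-completion. -/
  compl_smash : ∀ F : T.Sp, T.fin F → T.Tors F → ∀ X : T.Sp,
    IsIso ((T.smash.obj F).map (T.toCompl.app X))
  /-- A `p`-adic equivalence in high degrees is an isomorphism on `F_*` in high degrees, `F` a
  finite torsion spectrum. -/
  high : ∀ F : T.Sp, T.fin F → T.Tors F → ∀ (X Y : T.Sp) (f : X ⟶ Y), T.HighEquiv f →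
    ∃ N : ℤ, ∀ k : ℤ, N ≤ k → T.BijAt k ((T.smash.obj F).map f)

/-- Facts about `e_n` and commutative `e_n`-algebras. -/
structure IsAlg : Prop where
  /-- `π_0 e_n = W[[u_1, ..., u_{n-1}]]` is a local ring with residue characteristic `p`. -/
  e_local : IsLocalRing (T.pi0.obj T.e)
  e_char : ¬ IsUnit (p : T.pi0.obj T.e)
  /-- `e_n` is connective. -/
  e_below : T.Below 0 (T.und.obj T.e)
  /-- `e_n` is semi-finite and has a map to the trivial Galois extension `E_n[1/p]`. -/
  e_semifin : T.semifin T.e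
  e_galois : ∃ M : T.Alg, T.galois M ∧ Nonempty (T.e ⟶ M)
  /-- `π_0` of a semi-finite algebra is a finitely generated `π_0 e_n`-module. -/
  pi0_finite : ∀ B : T.Alg, T.semifin B → (T.pi0.map (T.unit B)).hom.Finite
  /-- `B[x]/(x^2)` is the sum of two copies of `B` as a module. -/
  D_semifin : ∀ B : T.Alg, T.semifin B → T.semifin (T.D.obj B)
  /-- `π_0 (B[x]/(x^2)) = (π_0 B)[x]/(x^2)`. -/
  D_pi0 : ∀ B : T.Alg, DualOf (T.pi0.obj B) (T.pi0.obj (T.D.obj B))

/-- The part of the K-theory of `B[x]/(x^2)` which belongs to the weights `m p^j`, for odd `m` prime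
to `p`: a retract `A` of the `p`-completion of `K(B[x]/(x^2))`, which has a map to `Σ^m THH(B)_p` (the
weight `m`) with a fibre `Q` (the weights `m p^j`, `j > 0`) whose homotopy groups vanish
below `2 m`. -/
def HasPart (B : T.Alg) (m : ℕ) : Prop :=
  ∃ (A Q : T.Sp) (i : A ⟶ T.compl.obj (T.K.obj (T.D.obj B)))
    (r : T.compl.obj (T.K.obj (T.D.obj B)) ⟶ A) (f : Q ⟶ A)
    (g : A ⟶ (T.compl.obj (T.THH.obj B))⟦(m : ℤ)⟧)
    (h : (T.compl.obj (T.THH.obj B))⟦(m : ℤ)⟧ ⟶ Q⟦(1 : ℤ)⟧),
    i ≫ r = 𝟙 A ∧ T.Below (2 * m) Q ∧ Triangle.mk f g h ∈ distTriang T.Sp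

/-- Facts about topological Hochschild homology and the K-theory of dual numbers. -/
structure IsDual : Prop where
  /-- For connective semi-finite `B`, `THH(B)` is connective with `π_0 THH(B) = π_0 B`, and `π_0 B`
  is `p`-complete. -/
  thh_below : ∀ B : T.Alg, T.semifin B → T.Below 0 (T.und.obj B) →
    T.Below 0 (T.compl.obj (T.THH.obj B))
  thh_zero : ∀ B : T.Alg, T.semifin B → T.Below 0 (T.und.obj B) →
    AddIso ((T.pi 0).obj (T.compl.obj (T.THH.obj B))) (T.pi0.obj B)
  /-- The algebraic K-theory of dual numbers (Dundas-Goodwillie-McCarthy, Hesselholt-Madsen,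
  Nikolaus-Scholze, Speirs): the relative topological cyclic homology of `B[x]/(x^2)` is the
  product of the parts of the weights `m p^j`, for `m` prime to `p`. -/
  weights : ∀ B : T.Alg, T.semifin B → T.Below 0 (T.und.obj B) → ∀ m : ℕ, Odd m →
    m.Coprime p → T.HasPart B m

/-- The published facts which are used. -/
structure IsKnown : Prop extends T.IsStable, T.IsFin, T.IsLoc, T.IsAlg, T.IsDual

end Theory

end Pool.Agent.H860.RS
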