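import Pool.Agent.H860.RS.Defs
import Pool.Agent.H860.RS.Alg

/-!
# Dual numbers over commutative `e_n`-algebras: the relative K-theory is unbounded
-/

set_option autoImplicit false

universe u v w u' v'

namespace Pool.Agent.H860.RS

open CategoryTheory Limits Pretriangulated TensorProduct

theorem conn_dualNumber {R : Type w} [CommRing R] (h : Conn R) : Conn (DualNumber R) := by
  obtain ⟨hn, hi⟩ := h
  refine ⟨⟨⟨0, 1, fun h => zero_ne_one (congrArg TrivSqZeroExt.fst h)⟩⟩, fun x hx => ?_⟩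
  have h1 : x.fst * x.fst = x.fst := by
    have := congrArg TrivSqZeroExt.fst hx
    simpa using this
  have h2 : x.fst * x.snd + x.snd * x.fst = x.snd := by
    have := congrArg TrivSqZeroExt.snd hx
    simpa using this
  rcases hi _ h1 with h3 | h3
  · left
    refine TrivSqZeroExt.ext ?_ ?_
    · simpa using h3
    · rw [h3] at h2
      simpa using h2.symm
  · right
    refine TrivSqZeroExt.ext ?_ ?_
    · simpa using h3
    · rw [h3] at h2
      simpa using h2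

theorem conn_of_equiv {R S : Type w} [CommRing R] [CommRing S] (e : R ≃+* S) (h : Conn S) :
    Conn R := by
  obtain ⟨hn, hi⟩ := h
  refine ⟨e.toEquiv.nontrivial, fun x hx => ?_⟩
  rcases hi (e x) (by rw [← map_mul, hx]) with h3 | h3
  · left
    exact e.injective (by rw [h3, map_zero])
  · right
    exact e.injective (by rw [h3, map_one])

theorem conn_of_local {R : Type w} [CommRing R] (h : IsLocalRing R) : Conn R := by
  refine ⟨inferInstance, fun x hx => ?_⟩
  have h1 : x * (x - 1) = 0 := by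
    rw [mul_sub, hx, mul_one, sub_self]
  rcases IsLocalRing.isUnit_or_isUnit_of_add_one (a := x) (b := 1 - x) (by ring) with h2 | h2
  · right
    have h3 := h2.mul_right_eq_zero.1 h1
    exact sub_eq_zero.1 h3
  · left
    have h3 : (1 - x) * x = 0 := by
      rw [sub_mul, one_mul, hx, sub_self]
    exact h2.mul_right_eq_zero.1 h3

namespace Theory

variable {p n : ℕ} {T : Theory.{u, v, w, u', v'} p n}

theorem nontrivial_of_retract {X Y : T.Sp} (i : X ⟶ Y) (r : Y ⟶ X) (h : i ≫ r = 𝟙 X) (k : ℤ)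
    (hX : Nontrivial ((T.pi k).obj X)) : Nontrivial ((T.pi k).obj Y) := by
  have h1 : (T.pi k).map i ≫ (T.pi k).map r = 𝟙 _ := by
    rw [← Functor.map_comp, h, CategoryTheory.Functor.map_id]
  have h2 : Function.Injective ((T.pi k).map i) := by
    intro x y hxy
    have h3 := congrArg ((T.pi k).map r) hxy
    rwa [← ConcreteCategory.comp_apply, ← ConcreteCategory.comp_apply, h1] at h3
  exact h2.nontrivial

theorem subsingleton_of_retract {X Y : T.Sp} (i : X ⟶ Y) (r : Y ⟶ X) (h : i ≫ r = 𝟙 X) (k : ℤ)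
    (hY : Subsingleton ((T.pi k).obj Y)) : Subsingleton ((T.pi k).obj X) := by
  by_contra hne
  rw [not_subsingleton_iff_nontrivial] at hne
  exact not_nontrivial_iff_subsingleton.2 hY (nontrivial_of_retract i r h k hne)

/-- The part of the K-theory of the dual numbers of the weights `m p^j`. -/
theorem weight_part (hT : T.IsKnown) (B : T.Alg) (hB : T.semifin B)
    (hb : T.Below 0 (T.und.obj B)) (m : ℕ) (hm : Odd m) (hmp : m.Coprime p) :
    ∃ (A : T.Sp) (i : A ⟶ T.compl.obj (T.K.obj (T.D.obj B)))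
      (r : T.compl.obj (T.K.obj (T.D.obj B)) ⟶ A), i ≫ r = 𝟙 A ∧ T.Below m A ∧
      Nonempty ((T.pi m).obj A ≃+ T.pi0.obj B) := by
  obtain ⟨A, Q, i, r, f, g, h, hir, hQ, htri⟩ := hT.weights B hB hb m hm hmp
  have hm0 : 0 < m := hm.pos
  refine ⟨A, i, r, hir, fun k hk => ?_, ?_⟩
  · have h1 := (hT.les _ _ _ f g h htri k).1
    have h2 : Subsingleton ((T.pi k).obj Q) := hQ k (by omega)
    have h3 : Subsingleton ((T.pi k).obj ((T.compl.obj (T.THH.obj B))⟦(m : ℤ)⟧)) := by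
      obtain ⟨e⟩ := hT.shift_pi (T.compl.obj (T.THH.obj B)) m k
      have := hT.thh_below B hB hb (k - m) (by omega)
      exact e.toEquiv.subsingleton
    refine ⟨fun x y => ?_⟩
    have h4 : ∀ z : (T.pi k).obj A, z = 0 := by
      intro z
      have h5 : (T.pi k).map g z = 0 := h3.elim _ _
      obtain ⟨w, hw⟩ := (h1 z).1 h5
      have h6 : w = 0 := h2.elim _ _
      rw [← hw, h6]
      exact map_zero _
    rw [h4 x, h4 y]
  · obtain ⟨h1, δ, h2, h3⟩ := hT.les _ _ _ f g h htri m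
    have h4 : Subsingleton ((T.pi m).obj Q) := hQ m (by omega)
    have h5 : Subsingleton ((T.pi ((m : ℤ) - 1)).obj Q) := hQ _ (by omega)
    have hbij : Function.Bijective ((T.pi m).map g) := by
      constructor
      · rw [injective_iff_map_eq_zero]
        intro z hz
        obtain ⟨w, hw⟩ := (h1 z).1 hz
        have h6 : w = 0 := h4.elim _ _
        rw [← hw, h6]
        exact map_zero _
      · intro y
        exact (h2 y).1 (h5.elim _ _)
    obtain ⟨e1⟩ := hT.shift_pi (T.compl.obj (T.THH.obj B)) m m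
    obtain ⟨e2⟩ := hT.thh_zero B hB hb
    have e0 : (T.pi m).obj A ≃+ (T.pi m).obj ((T.compl.obj (T.THH.obj B))⟦(m : ℤ)⟧) :=
      AddEquiv.ofBijective ((T.pi m).map g).hom hbij
    rw [sub_self] at e1
    exact ⟨(e0.trans e1).trans e2⟩

/-- The K-theory of dual numbers is unbounded with coefficients in every nonzero finite torsion
spectrum. -/
theorem unbounded [Fact p.Prime] (hT : T.IsKnown) (B : T.Alg) (hA : T.Admissible B)
    (hb : T.Below 0 (T.und.obj B)) (F : T.Sp) (hF : T.fin F) (h0 : ¬ IsZero F)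
    (ht : T.Tors F) (N : ℤ) :
    ∃ k : ℤ, N ≤ k ∧ Nontrivial (T.hom F k (T.K.obj (T.D.obj B))) := by
  obtain ⟨b, hbF, hbn⟩ := hT.fin_bottom F hF h0
  obtain ⟨m, hm, hmp, hmN⟩ : ∃ m : ℕ, Odd m ∧ m.Coprime p ∧ N ≤ b + m := by
    refine ⟨2 * (p * (N.natAbs + b.natAbs)) + 1, ⟨_, rfl⟩, ?_, ?_⟩
    · have h1 : 2 * (p * (N.natAbs + b.natAbs)) + 1 = 1 + p * (2 * (N.natAbs + b.natAbs)) := by
        ring
      rw [h1]
      simp
    · have hp : 1 ≤ p := (Fact.out : p.Prime).one_lt.le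
      have h1 : N.natAbs + b.natAbs ≤ p * (N.natAbs + b.natAbs) := Nat.le_mul_of_pos_left _ hp
      have h2 : N - b ≤ (N.natAbs + b.natAbs : ℕ) := by
        push_cast
        have := le_abs_self N
        have := neg_abs_le b
        linarith
      have h3 : ((N.natAbs + b.natAbs : ℕ) : ℤ) ≤ (p * (N.natAbs + b.natAbs) : ℕ) := by
        exact_mod_cast h1
      have h4 : ((2 * (p * (N.natAbs + b.natAbs)) + 1 : ℕ) : ℤ) =
          2 * ((p * (N.natAbs + b.natAbs) : ℕ) : ℤ) + 1 := by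
        push_cast
        ring
      rw [h4]
      have h5 : (0 : ℤ) ≤ ((p * (N.natAbs + b.natAbs) : ℕ) : ℤ) := Int.natCast_nonneg _
      linarith
  obtain ⟨A, i, r, hir, hAb, ⟨e⟩⟩ := weight_part hT B hA.2.1 hb m hm hmp
  refine ⟨b + m, hmN, ?_⟩
  obtain ⟨e'⟩ := hT.smash_bottom F A b m hbF hAb
  -- the bottom group of `F`
  have hH : ∃ x : (T.pi b).obj F, ∀ y : (T.pi b).obj F, p • y ≠ x := by
    obtain ⟨M, hM⟩ := ht
    refine not_divisible M fun x => ?_
    have h1 := (T.pi b).map_nsmul (f := 𝟙 F) (n := p ^ M)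
    rw [hM, Functor.map_zero, CategoryTheory.Functor.map_id] at h1
    have h2 := congrArg (fun q : (T.pi b).obj F ⟶ (T.pi b).obj F => q x) h1
    simpa using h2.symm
  have hA' : ∃ x : (T.pi m).obj A, ∀ y : (T.pi m).obj A, p • y ≠ x := by
    have : Nontrivial (T.pi0.obj B) := hA.1.1
    obtain ⟨x, hx⟩ := not_divisible_of_finite (p := p) _ (hT.pi0_finite B hA.2.1) hT.e_local
      hT.e_char
    refine ⟨e.symm x, fun y hy => hx (e y) ?_⟩
    rw [← map_nsmul, hy]
    exact e.apply_symm_apply x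
  have h1 := tensor_nontrivial hH hA'
  have h2 : Nontrivial (T.hom F (b + m) A) := e'.toEquiv.nontrivial
  have h3 : Nontrivial (T.hom F (b + m) (T.compl.obj (T.K.obj (T.D.obj B)))) :=
    nontrivial_of_retract ((T.smash.obj F).map i) ((T.smash.obj F).map r)
      (by rw [← Functor.map_comp, hir, CategoryTheory.Functor.map_id]) _ h2
  have h4 := hT.compl_smash F hF ht (T.K.obj (T.D.obj B))
  exact nontrivial_of_retract (inv ((T.smash.obj F).map (T.toCompl.app (T.K.obj (T.D.obj B)))))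
    ((T.smash.obj F).map (T.toCompl.app (T.K.obj (T.D.obj B)))) (IsIso.inv_hom_id _) _ h3

theorem isIso_iter {F : T.Sp} {d : ℤ} (v : F⟦d⟧ ⟶ F) (hv : IsIso v) (N : ℕ) :
    IsIso (T.iter v N) := by
  induction N with
  | zero => exact inferInstanceAs (IsIso (𝟙 F))
  | succ N ih => exact inferInstanceAs (IsIso ((T.iter v N)⟦d⟧' ≫ v))

/-- A self map of a nonzero finite spectrum is not an isomorphism. -/
theorem not_iso (hT : T.IsKnown) {F : T.Sp} {d : ℤ} (v : F⟦d⟧ ⟶ F) (hv : T.SelfMap v)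
    (h0 : ¬ IsZero F) : ¬ IsIso v := by
  intro hi
  obtain ⟨m₀, hm₀⟩ := hT.fin_morava F hv.1 h0
  obtain ⟨m, hm, hne⟩ : ∃ m : ℕ, m₀ ≤ m ∧ m ≠ n + 1 := ⟨m₀ + n + 2, by omega, by omega⟩
  obtain ⟨k, hk⟩ := hm₀ m hm
  obtain ⟨N, hN⟩ := hv.2.2 m hne
  have h1 := isIso_iter v hi N
  have h2 : IsIso (T.act (T.iter v N) k (T.Kn m)) := by
    unfold act
    infer_instance
  rw [hN k] at h2
  obtain ⟨x, hx⟩ := exists_ne (0 : T.hom F k (T.Kn m))
  obtain ⟨q, hq1, hq2⟩ := h2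
  rw [comp_zero] at hq2
  have h3 := congrArg (fun q' : T.hom F k (T.Kn m) ⟶ T.hom F k (T.Kn m) => q' x) hq2
  apply hx
  simpa using h3.symm

theorem tors_cofibre {X Y C : T.Sp} (f : X ⟶ Y) (g : Y ⟶ C) (h : C ⟶ X⟦(1 : ℤ)⟧)
    (ht : Triangle.mk f g h ∈ distTriang T.Sp) (hX : T.Tors X) (hY : T.Tors Y) : T.Tors C := by
  obtain ⟨N, hN⟩ := hX
  obtain ⟨M, hM⟩ := hY
  have h1 : (p ^ N : ℕ) • h = 0 := by
    have h2 : (p ^ N : ℕ) • 𝟙 (X⟦(1 : ℤ)⟧) = 0 := by
      have h3 := congrArg (fun q => (shiftFunctor T.Sp (1 : ℤ)).map q) hN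
      simp only [Functor.map_zero, Functor.map_nsmul, CategoryTheory.Functor.map_id] at h3
      exact h3
    have h4 := congrArg (fun q => h ≫ q) h2
    simpa [Preadditive.comp_nsmul] using h4
  obtain ⟨q, hq⟩ : ∃ q : C ⟶ Y, (p ^ N : ℕ) • 𝟙 C = q ≫ g :=
    Triangle.coyoneda_exact₃ _ ht ((p ^ N : ℕ) • 𝟙 C) (by
      show ((p ^ N : ℕ) • 𝟙 C) ≫ h = 0
      rw [Preadditive.nsmul_comp, Category.id_comp, h1])
  refine ⟨M + N, ?_⟩
  rw [pow_add, mul_smul, hq, ← Preadditive.comp_nsmul]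
  have h5 : (p ^ M : ℕ) • g = 0 := by
    have h6 := congrArg (fun q => q ≫ g) hM
    simpa [Preadditive.nsmul_comp] using h6
  rw [h5, comp_zero]

theorem tors_shift {X : T.Sp} (hX : T.Tors X) (d : ℤ) : T.Tors (X⟦d⟧) := by
  obtain ⟨N, hN⟩ := hX
  refine ⟨N, ?_⟩
  have h3 := congrArg (fun q => (shiftFunctor T.Sp d).map q) hN
  simp only [Functor.map_zero, Functor.map_nsmul, CategoryTheory.Functor.map_id] at h3
  exact h3

/-- Statement (1) fails for the dual numbers and every self map of a nonzero finite spectrum. -/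
theorem not_one [Fact p.Prime] (hT : T.IsKnown) (B : T.Alg) (hA : T.Admissible B)
    (hb : T.Below 0 (T.und.obj B)) {F : T.Sp} {d : ℤ} (v : F⟦d⟧ ⟶ F) (hv : T.SelfMap v)
    (h0 : ¬ IsZero F) : ¬ T.One (T.D.obj B) v := by
  rintro ⟨N, hN⟩
  obtain ⟨C, g, h, ht⟩ := distinguished_cocone_triangle v
  have hC : T.fin C := hT.fin_cofibre F C d v g h hv.1 ht
  have hC0 : ¬ IsZero C := fun hz =>
    not_iso hT v hv h0 ((Triangle.isZero₃_iff_isIso₁ _ ht).1 hz)
  have hFt : T.Tors F := hT.fin_tors F hv.1 (hT.hopkins_smith F d v hv 0 (Nat.zero_le _))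
  have hCt : T.Tors C := tors_cofibre v g h ht (tors_shift hFt d) hFt
  obtain ⟨k, hk, hkn⟩ := unbounded hT B hA hb C hC hC0 hCt (N + 1)
  obtain ⟨h', ht'⟩ := hT.smash_tri _ _ _ v g h ht (T.K.obj (T.D.obj B))
  obtain ⟨h1, δ, h2, h3⟩ := hT.les _ _ _ _ _ _ ht' k
  obtain ⟨x, hx⟩ := exists_ne (0 : T.hom C k (T.K.obj (T.D.obj B)))
  apply hx
  have h4 : δ x = 0 := by
    have h5 := (h3 (δ x)).2 ⟨x, rfl⟩
    exact (hN (k - 1) (by omega)).1
      (h5.trans (map_zero (T.act v (k - 1) (T.K.obj (T.D.obj B))).hom).symm)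
  obtain ⟨y, hy⟩ := (h2 x).1 h4
  obtain ⟨z, hz⟩ := (hN k (by omega)).2 y
  rw [← hy, ← hz]
  exact (h1 _).2 ⟨z, rfl⟩

/-- Statement (2) fails for the dual numbers. -/
theorem not_two [Fact p.Prime] (hT : T.IsKnown) (B : T.Alg) (hA : T.Admissible B)
    (hb : T.Below 0 (T.und.obj B)) : ¬ T.Two (T.D.obj B) := by
  intro h2
  obtain ⟨F, hF, h0, hm⟩ := hT.mitchell
  have ht : T.Tors F := hT.fin_tors F hF (hm 0 (Nat.zero_le _))
  obtain ⟨N, hN⟩ := hT.high F hF ht _ _ _ h2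
  obtain ⟨k, hk, hkn⟩ := unbounded hT B hA hb F hF h0 ht N
  have h3 := hT.L_acyclic F hF hm (T.K.obj (T.D.obj B)) k
  obtain ⟨x, hx⟩ := exists_ne (0 : T.hom F k (T.K.obj (T.D.obj B)))
  apply hx
  refine (hN k hk).1 ?_
  exact h3.elim _ _

theorem admissible_D (hT : T.IsKnown) (B : T.Alg) (hA : T.Admissible B) :
    T.Admissible (T.D.obj B) := by
  obtain ⟨h1, h2, M, hM, ⟨f⟩⟩ := hA
  obtain ⟨e⟩ := hT.D_pi0 B
  exact ⟨conn_of_equiv e (conn_dualNumber h1), hT.D_semifin B h2, M, hM, ⟨T.aug.app B ≫ f⟩⟩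

theorem admissible_e (hT : T.IsKnown) : T.Admissible T.e :=
  ⟨conn_of_local hT.e_local, hT.e_semifin, hT.e_galois⟩

/-- The zero map is a `v_{n+1}` self map of a finite spectrum of type at least `n + 2`. -/
theorem exists_selfMap (hT : T.IsKnown) :
    ∃ (F : T.Sp) (v : F⟦(0 : ℤ)⟧ ⟶ F), T.SelfMap v ∧ ¬ IsZero F := by
  obtain ⟨F, hF, h0, hm⟩ := hT.mitchell
  refine ⟨F, 0, ⟨hF, fun k => ?_, fun m _ => ⟨1, fun k => ?_⟩⟩, h0⟩
  · have h1 : Subsingleton (T.hom F k (T.Kn (n + 1))) := hm (n + 1) le_rfl k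
    have e : F⟦(0 : ℤ)⟧ ≅ F := (shiftFunctorZero T.Sp ℤ).app F
    have h2 : Subsingleton (T.hom (F⟦(0 : ℤ)⟧) k (T.Kn (n + 1))) :=
      subsingleton_of_retract ((T.smash.map e.hom).app _) ((T.smash.map e.inv).app _)
        (by rw [← NatTrans.comp_app, ← Functor.map_comp, e.hom_inv_id,
          CategoryTheory.Functor.map_id, NatTrans.id_app]) k h1
    exact ⟨fun x y _ => h2.elim _ _, fun y => ⟨0, h1.elim _ _⟩⟩
  · have h1 : T.iter (0 : F⟦(0 : ℤ)⟧ ⟶ F) 1 = 0 := comp_zero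
    rw [h1]
    unfold act
    rw [Functor.map_zero]
    exact Functor.map_zero _ _ _

end Theory

end Pool.Agent.H860.RS
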