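import Pool.Agent.H860.RS.Main

/-!
# Orders in Galois extensions

The algebras `e_n` and `e_n ×_{H π_0 e_n} e_n`, the Land-Tamme ring, and the comparison with
`L^f_{n+1}`.
-/

set_option autoImplicit false

universe u v w u' v'

namespace Pool.Agent.H860.RS

open CategoryTheory Limits Pretriangulated

namespace Theory

variable {p n : ℕ} (T : Theory.{u, v, w, u', v'} p n)

/-- `X → Y → Z` is part of a cofibre sequence. -/
def Cofib {X Y Z : T.Sp} (f : X ⟶ Y) (g : Y ⟶ Z) : Prop :=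
  ∃ h : Z ⟶ X⟦(1 : ℤ)⟧, Triangle.mk f g h ∈ distTriang T.Sp

/-- There is a cofibre sequence `X → Y → Z`. -/
def HasCofib (X Y Z : T.Sp) : Prop := ∃ (f : X ⟶ Y) (g : Y ⟶ Z), T.Cofib f g

/-- The homotopy groups of the `p`-completion vanish in all sufficiently high degrees. -/
def Above (X : T.Sp) : Prop :=
  ∃ N : ℤ, ∀ k : ℤ, N ≤ k → Subsingleton ((T.pi k).obj (T.compl.obj X))

/-- Additional objects. -/
structure Orders where
  /-- The cofibre of the localization map `X → L^f_{n+1} X`. -/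
  Lc : T.Sp ⥤ T.Sp
  /-- The algebra `H π_0 e_n = e_n / u`. -/
  HR : T.Alg
  /-- The pullback `e_n ×_{H π_0 e_n} e_n`. -/
  W : T.Alg
  /-- The K-theory of the Land-Tamme ring `e_n ⊙ e_n` (with underlying spectrum `e_n ⊗_W e_n`) of
  this pullback. -/
  KO : T.Sp
  /-- The fibre of `K(e_n ⊙ e_n) → K(π_0 e_n)`. -/
  KT : T.Sp
  /-- The map of algebras `B → M` exhibits `M` as `B[1/p, 1/u]`. -/
  IsLocn : ∀ {B M : T.Alg}, (B ⟶ M) → Prop

namespace Orders

variable {T} (O : T.Orders)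

/-- `B` is an order in a Galois extension of `E_n[1/p]`: it is connective, connected and semi-finite,
and `B[1/p, 1/u]` is a Galois extension of `E_n[1/p]` for a finite group. -/
def IsOrder (B : T.Alg) : Prop :=
  Conn (T.pi0.obj B) ∧ T.semifin B ∧ T.Below 0 (T.und.obj B) ∧
    ∃ (M : T.Alg) (f : B ⟶ M), T.galois M ∧ O.IsLocn f

/-- The question for orders only. -/
def OrderQuestion : Prop := ∀ B : T.Alg, O.IsOrder B → ∀ (F : T.Sp) (d : ℤ) (v : F⟦d⟧ ⟶ F),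
  T.SelfMap v → T.One B v ∧ T.Two B

/-- The published facts which are used in addition. -/
structure IsKnown : Prop where
  /-- The `p`-completion preserves cofibre sequences. -/
  compl_tri : ∀ (X Y Z : T.Sp) (f : X ⟶ Y) (g : Y ⟶ Z), T.Cofib f g →
    T.Cofib (T.compl.map f) (T.compl.map g)
  /-- `Lc` preserves cofibre sequences. -/
  Lc_tri : ∀ (X Y Z : T.Sp) (f : X ⟶ Y) (g : Y ⟶ Z), T.Cofib f g → T.Cofib (O.Lc.map f) (O.Lc.map g)
  /-- `Lc X` is the cofibre of `X → L X`. -/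
  Lc_cofib : ∀ X : T.Sp, ∃ g : T.L.obj X ⟶ O.Lc.obj X, T.Cofib (T.toL.app X) g
  /-- `e_n[1/p, 1/u] = E_n[1/p]` is the trivial Galois extension. -/
  e_order : ∃ (M : T.Alg) (f : T.e ⟶ M), T.galois M ∧ O.IsLocn f
  /-- `W[1/p, 1/u]` is the Galois extension `E_n[1/p] × E_n[1/p]`, since `u` is zero on
  `H π_0 e_n = e_n / u`; and `W` is semi-finite and connective with `π_0 W = π_0 e_n`. -/
  W_order : ∃ (M : T.Alg) (f : O.W ⟶ M), T.galois M ∧ O.IsLocn f
  W_semifin : T.semifin O.W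
  W_below : T.Below 0 (T.und.obj O.W)
  W_pi0 : Nonempty (T.pi0.obj O.W ≃+* T.pi0.obj T.e)
  /-- Suspension and the smash product. -/
  smash_shift : ∀ (F X : T.Sp) (d k : ℤ), AddIso (T.hom (F⟦d⟧) k X) (T.hom F (k - d) X)
  /-- The smash product with a spectrum preserves cofibre sequences (in the second variable). -/
  smash_right : ∀ (C X Y Z : T.Sp) (f : X ⟶ Y) (g : Y ⟶ Z), T.Cofib f g →
    T.Cofib ((T.smash.obj C).map f) ((T.smash.obj C).map g)
  /-- Land and Tamme: the square of `K(W)`, two copies of `K(e_n)` and `K(e_n ⊙ e_n)` is homotopy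
  cartesian; so its two horizontal cofibres agree. -/
  land_tamme : ∃ Q : T.Sp, T.HasCofib (T.K.obj O.W) (T.K.obj T.e) Q ∧
    T.HasCofib (T.K.obj T.e) O.KO Q
  KT_cofib : T.HasCofib O.KT O.KO (T.K.obj O.HR)
  /-- The Lichtenbaum-Quillen conjecture for the regular ring `π_0 e_n = W(k)[[u_1, ...]]`. -/
  lichtenbaum_quillen : T.Two O.HR
  /-- The ring `e_n ⊙ e_n` is `T(i)`-acyclic for all `i ≥ 1`, as `u` is zero in its `π_2`; so the
  fibre `KT` is `T(i)`-acyclic for all `i ≥ 1` (Land, Mathew, Meier, Tamme). -/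
  purity : ∀ k : ℤ, Subsingleton ((T.pi k).obj (T.compl.obj (T.L.obj O.KT)))
  /-- A spectrum `X` which is `T(i)`-acyclic for all `i ≥ 1`, and for which `C_* X` is bounded above
  for some finite torsion spectrum `C ≠ 0`, has a bounded above `p`-completion (Hopkins-Smith); this
  is applied to `KT`. -/
  telescopes : ∀ C : T.Sp, T.fin C → ¬ IsZero C → T.Tors C →
    (∃ N : ℤ, ∀ k : ℤ, N ≤ k → Subsingleton (T.hom C k O.KT)) → T.Above O.KT
  /-- `π_* (e_n ⊙ e_n)` is polynomial over `π_0 e_n` on a generator `t` of degree `6`, and the groups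
  `π_{6m+1}` of the `p`-completion of the fibre `KT` are rationally nonzero; they contain the classes
  of `t^m` in cyclic homology (Goodwillie; Dundas, Goodwillie, McCarthy; Antieau, Mathew, Morrow,
  Nikolaus). -/
  goodwillie : ∀ m : ℕ, 1 ≤ m → Nontrivial ((T.pi (6 * m + 1)).obj (T.compl.obj O.KT))

end Orders

variable {T}

theorem les_mid (hT : T.IsKnown) {X Y Z : T.Sp} {f : X ⟶ Y} {g : Y ⟶ Z} (h : T.Cofib f g) (k : ℤ)
    (h1 : Subsingleton ((T.pi k).obj X)) (h2 : Subsingleton ((T.pi k).obj Z)) :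
    Subsingleton ((T.pi k).obj Y) := by
  obtain ⟨h, ht⟩ := h
  have h3 := (hT.les _ _ _ f g h ht k).1
  have h4 : ∀ z : (T.pi k).obj Y, z = 0 := by
    intro z
    obtain ⟨w, hw⟩ := (h3 z).1 (h2.elim _ _)
    have h6 : w = 0 := h1.elim _ _
    rw [← hw, h6]
    exact map_zero _
  exact ⟨fun x y => by rw [h4 x, h4 y]⟩

theorem les_right (hT : T.IsKnown) {X Y Z : T.Sp} {f : X ⟶ Y} {g : Y ⟶ Z} (h : T.Cofib f g)
    (k : ℤ) (h1 : Subsingleton ((T.pi k).obj Y)) (h2 : Subsingleton ((T.pi (k - 1)).obj X)) :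
    Subsingleton ((T.pi k).obj Z) := by
  obtain ⟨h, ht⟩ := h
  obtain ⟨-, δ, h3, -⟩ := hT.les _ _ _ f g h ht k
  have h4 : ∀ z : (T.pi k).obj Z, z = 0 := by
    intro z
    obtain ⟨w, hw⟩ := (h3 z).1 (h2.elim _ _)
    have h6 : w = 0 := h1.elim _ _
    rw [← hw, h6]
    exact map_zero _
  exact ⟨fun x y => by rw [h4 x, h4 y]⟩

theorem les_left (hT : T.IsKnown) {X Y Z : T.Sp} {f : X ⟶ Y} {g : Y ⟶ Z} (h : T.Cofib f g)
    (k : ℤ) (h1 : Subsingleton ((T.pi (k - 1)).obj Y)) (h2 : Subsingleton ((T.pi k).obj Z)) :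
    Subsingleton ((T.pi (k - 1)).obj X) := by
  obtain ⟨h, ht⟩ := h
  obtain ⟨-, δ, -, h3⟩ := hT.les _ _ _ f g h ht k
  have h4 : ∀ z : (T.pi (k - 1)).obj X, z = 0 := by
    intro z
    obtain ⟨w, hw⟩ := (h3 z).1 (h1.elim _ _)
    have h6 : w = 0 := h2.elim _ _
    rw [← hw, h6]
    exact map_zero _
  exact ⟨fun x y => by rw [h4 x, h4 y]⟩

/-- The homotopy groups of `G X` vanish in all sufficiently high degrees. -/
def Up (G : T.Sp ⥤ T.Sp) (X : T.Sp) : Prop :=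
  ∃ N : ℤ, ∀ k : ℤ, N ≤ k → Subsingleton ((T.pi k).obj (G.obj X))

/-- The functor preserves cofibre sequences. -/
def Ex (G : T.Sp ⥤ T.Sp) : Prop := ∀ (X Y Z : T.Sp) (f : X ⟶ Y) (g : Y ⟶ Z), T.Cofib f g →
  T.Cofib (G.map f) (G.map g)

theorem up_mid (hT : T.IsKnown) (G : T.Sp ⥤ T.Sp) (hG : Ex G) {X Y Z : T.Sp}
    (h : T.HasCofib X Y Z) (h1 : Up G X) (h2 : Up G Z) : Up G Y := by
  obtain ⟨f, g, h⟩ := h
  obtain ⟨N, hN⟩ := h1
  obtain ⟨M, hM⟩ := h2
  exact ⟨max N M, fun k hk => les_mid hT (hG _ _ _ f g h) k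
    (hN k (le_trans (le_max_left _ _) hk)) (hM k (le_trans (le_max_right _ _) hk))⟩

theorem up_right (hT : T.IsKnown) (G : T.Sp ⥤ T.Sp) (hG : Ex G) {X Y Z : T.Sp}
    (h : T.HasCofib X Y Z) (h1 : Up G X) (h2 : Up G Y) : Up G Z := by
  obtain ⟨f, g, h⟩ := h
  obtain ⟨N, hN⟩ := h1
  obtain ⟨M, hM⟩ := h2
  refine ⟨max N M + 1, fun k hk => les_right hT (hG _ _ _ f g h) k (hM k ?_) (hN (k - 1) ?_)⟩
  · have := le_max_right N M
    omega
  · have := le_max_left N M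
    omega

theorem up_left (hT : T.IsKnown) (G : T.Sp ⥤ T.Sp) (hG : Ex G) {X Y Z : T.Sp}
    (h : T.HasCofib X Y Z) (h1 : Up G Y) (h2 : Up G Z) : Up G X := by
  obtain ⟨f, g, h⟩ := h
  obtain ⟨N, hN⟩ := h1
  obtain ⟨M, hM⟩ := h2
  refine ⟨max N M, fun k hk => ?_⟩
  have h3 := les_left hT (hG _ _ _ f g h) (k + 1)
  rw [add_sub_cancel_right] at h3
  refine h3 (hN k (le_trans (le_max_left _ _) hk)) (hM (k + 1) ?_)
  have := le_max_right N M
  omega

/-- The Mayer-Vietoris argument. -/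
theorem up_KT (hT : T.IsKnown) (O : T.Orders) (hO : O.IsKnown) (G : T.Sp ⥤ T.Sp) (hG : Ex G)
    (h1 : Up G (T.K.obj T.e)) (h2 : Up G (T.K.obj O.W)) (h3 : Up G (T.K.obj O.HR)) :
    Up G O.KT := by
  obtain ⟨Q, hQ1, hQ2⟩ := hO.land_tamme
  exact up_left hT G hG hO.KT_cofib (up_mid hT G hG hQ2 h1 (up_right hT G hG hQ1 h2 h1)) h3

theorem ex_Lc (O : T.Orders) (hO : O.IsKnown) : Ex (O.Lc ⋙ T.compl) :=
  fun X Y Z f g h => hO.compl_tri _ _ _ _ _ (hO.Lc_tri _ _ _ f g h)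

theorem zero_of_bij (hT : T.IsKnown) {X Y Z : T.Sp} {f : X ⟶ Y} {g : Y ⟶ Z} (h : T.Cofib f g)
    (k : ℤ) (h1 : T.BijAt (k - 1) f) (h2 : T.BijAt k f) : Subsingleton ((T.pi k).obj Z) := by
  obtain ⟨h', ht'⟩ := h
  obtain ⟨h3, δ, h4, h5⟩ := hT.les _ _ _ _ _ _ ht' k
  have h6 : ∀ x : (T.pi k).obj Z, x = 0 := by
    intro x
    have h6 : δ x = 0 := h1.1 (((h5 (δ x)).2 ⟨x, rfl⟩).trans
      (map_zero ((T.pi (k - 1)).map f).hom).symm)
    obtain ⟨y, hy⟩ := (h4 x).1 h6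
    obtain ⟨z, hz⟩ := h2.2 y
    rw [← hy, ← hz]
    exact (h3 _).2 ⟨z, rfl⟩
  exact ⟨fun x y => by rw [h6 x, h6 y]⟩

/-- Statement (2) says that the cofibre of the localization map is bounded above. -/
theorem up_of_two (hT : T.IsKnown) (O : T.Orders) (hO : O.IsKnown) {B : T.Alg}
    (h : T.Two B) : Up (O.Lc ⋙ T.compl) (T.K.obj B) := by
  obtain ⟨N, hN⟩ := h
  obtain ⟨g, hg⟩ := hO.Lc_cofib (T.K.obj B)
  exact ⟨N + 1, fun k hk => zero_of_bij hT (hO.compl_tri _ _ _ _ _ hg) k (hN (k - 1) (by omega))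
    (hN k (by omega))⟩

theorem exists_large (N : ℤ) : ∃ m : ℕ, 1 ≤ m ∧ N ≤ 6 * m := by
  refine ⟨N.natAbs + 1, by omega, ?_⟩
  have := Int.le_natAbs (a := N)
  omega

/-- Statement (2) cannot hold for both `e_n` and `e_n ×_{H π_0 e_n} e_n`. -/
theorem not_both (hT : T.IsKnown) (O : T.Orders) (hO : O.IsKnown) :
    ¬ (T.Two T.e ∧ T.Two O.W) := by
  rintro ⟨he, hW⟩
  obtain ⟨N, hN⟩ := up_KT hT O hO (O.Lc ⋙ T.compl) (ex_Lc O hO) (up_of_two hT O hO he)
    (up_of_two hT O hO hW) (up_of_two hT O hO hO.lichtenbaum_quillen)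
  obtain ⟨g, hg⟩ := hO.Lc_cofib O.KT
  obtain ⟨m, hm1, hm2⟩ := exists_large N
  have h6 := les_left hT (hO.compl_tri _ _ _ _ _ hg) (6 * m + 1 + 1)
  rw [add_sub_cancel_right] at h6
  have h7 := h6 (hO.purity _) (hN _ (by omega))
  exact not_nontrivial_iff_subsingleton.2 h7 (hO.goodwillie m hm1)

/-- Statement (1) for one self map of a nonzero finite spectrum cannot hold for both `e_n` and
`e_n ×_{H π_0 e_n} e_n`. -/
theorem not_both_one (hT : T.IsKnown) (O : T.Orders) (hO : O.IsKnown) {F : T.Sp} {d : ℤ}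
    (v : F⟦d⟧ ⟶ F) (hv : T.SelfMap v) (h0 : ¬ IsZero F) : ¬ (T.One T.e v ∧ T.One O.W v) := by
  rintro ⟨he, hW⟩
  obtain ⟨C, g, h, ht⟩ := distinguished_cocone_triangle v
  have hC : T.fin C := hT.fin_cofibre F C d v g h hv.1 ht
  have hC0 : ¬ IsZero C := fun hz =>
    not_iso hT v hv h0 ((Triangle.isZero₃_iff_isIso₁ _ ht).1 hz)
  have hFt : T.Tors F := hT.fin_tors F hv.1 (hT.hopkins_smith F d v hv 0 (Nat.zero_le _))
  have hCt : T.Tors C := tors_cofibre v g h ht (tors_shift hFt d) hFt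
  have hCX : ∀ X : T.Sp, T.Cofib ((T.smash.map v).app X) ((T.smash.map g).app X) :=
    fun X => hT.smash_tri _ _ _ v g h ht X
  have hb : ∀ B : T.Alg, T.One B v → Up (T.smash.obj C) (T.K.obj B) := by
    rintro B ⟨N, hN⟩
    exact ⟨N + 1, fun k hk => zero_of_bij hT (hCX _) k (hN (k - 1) (by omega))
      (hN k (by omega))⟩
  have htype : ∀ m : ℕ, m ≤ n + 1 → ∀ k : ℤ, Subsingleton (T.hom C k (T.Kn m)) := by
    intro m hm k
    rcases Nat.lt_or_ge n m with h1 | h1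
    · obtain rfl : m = n + 1 := by omega
      exact zero_of_bij hT (hCX _) k (hv.2.1 (k - 1)) (hv.2.1 k)
    · refine les_right hT (hCX _) k (hT.hopkins_smith F d v hv m h1 k) ?_
      obtain ⟨e⟩ := hO.smash_shift F (T.Kn m) d (k - 1)
      have h2 := hT.hopkins_smith F d v hv m h1 (k - 1 - d)
      exact e.toEquiv.subsingleton
  have hR : Up (T.smash.obj C) (T.K.obj O.HR) := by
    obtain ⟨N, hN⟩ := hT.high C hC hCt _ _ _ hO.lichtenbaum_quillen
    refine ⟨N, fun k hk => ?_⟩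
    have h3 := hT.L_acyclic C hC htype (T.K.obj O.HR) k
    exact ⟨fun x y => (hN k hk).1 (h3.elim _ _)⟩
  obtain ⟨N, hN⟩ := hO.telescopes C hC hC0 hCt
    (up_KT hT O hO (T.smash.obj C) (hO.smash_right C) (hb _ he) (hb _ hW) hR)
  obtain ⟨m, hm1, hm2⟩ := exists_large N
  exact not_nontrivial_iff_subsingleton.2 (hN (6 * m + 1) (by omega)) (hO.goodwillie m hm1)

theorem order_e (hT : T.IsKnown) (O : T.Orders) (hO : O.IsKnown) : O.IsOrder T.e :=
  ⟨conn_of_local hT.e_local, hT.e_semifin, hT.e_below, hO.e_order⟩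

theorem order_W (hT : T.IsKnown) (O : T.Orders) (hO : O.IsKnown) : O.IsOrder O.W := by
  obtain ⟨e⟩ := hO.W_pi0
  exact ⟨conn_of_equiv e (conn_of_local hT.e_local), hO.W_semifin, hO.W_below, hO.W_order⟩

end Theory

end Pool.Agent.H860.RS
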